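import Pool.Agent.H25.CBase

set_option autoImplicit false

namespace Pool.Agent.Results.MP_42fe4d_lc.NPHard
open Pool.Agent.H11.PT Pool.Agent.H25.CB Finset

/-- vertex names -/
abbrev V := ℕ × ℕ

/-- an instance: vertices, edges, and for each vertex numerator and denominator of `x_v` -/
abbrev Inst := List V × List (V × V) × List (V × List Bool × List Bool)

def G (y : Inst) : SimpleGraph V := SimpleGraph.fromRel fun u v => (u, v) ∈ y.2.1

def x (y : Inst) (v : V) : ℚ := ((y.2.2.lookup v).map fun p => (bin p.1 : ℚ) / bin p.2).getD 0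

/-- `S` is partitioned into `a` cliques of `H` of size `b` -/
def Splits (H : SimpleGraph V) (S : Finset V) (a b : ℕ) : Prop :=
  ∃ c : V → ℕ, (∀ u ∈ S, c u < a) ∧ ∀ i < a, H.IsNClique b (S.filter fun u => c u = i)

/-- the subgraph of `H` induced on `I` is partitionable -/
def Partitionable (H : SimpleGraph V) (I : Finset V) : Prop :=
  ∃ a w, 2 ≤ a ∧ 2 ≤ w ∧ #I = a * w + 1 ∧
    ∀ v ∈ I, Splits H (I.erase v) a w ∧ Splits Hᶜ (I.erase v) w a

open Classical in
/-- stability number of the subgraph induced on `I` -/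
noncomputable def alpha (H : SimpleGraph V) (I : Finset V) : ℕ :=
  (I.powerset.filter fun s : Finset V => H.IsIndepSet s).sup card

def Valid (y : Inst) : Prop :=
  (∀ e ∈ y.2.1, e.1 ∈ y.1 ∧ e.2 ∈ y.1) ∧ ∀ v ∈ y.1, 0 ≤ x y v ∧ x y v ≤ 1 / 3

/-- some partitionable graph inequality is violated -/
def Violated (y : Inst) : Prop :=
  ∃ I ⊆ y.1.toFinset, Partitionable (G y) I ∧ (alpha (G y) I : ℚ) < ∑ v ∈ I, x y v

def vs (φ : F3) : List V := (List.range (4 * φ.length + 9) ×ˢ List.range 3).filter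
  fun v => decide (v.2 = 0 ∨ v.1 % 4 = 1)
def li (φ : F3) (u : V) : Lit := lit φ (3 * (u.1 / 4) + u.2)
def cy (N s t : ℕ) : Prop := s + 1 = t ∨ t + 1 = s ∨ (s = 0 ∧ t = N) ∨ (t = 0 ∧ s = N)
def H (φ : F3) (u v : V) : Prop := cy (4 * φ.length + 8) u.1 v.1 ∨
  (u.1 % 4 = 1 ∧ v.1 % 4 = 1 ∧ u.1 < 4 * φ.length ∧ v.1 < 4 * φ.length ∧
    (li φ u).1 = (li φ v).1 ∧ ¬ (li φ u).2 = (li φ v).2)
instance (φ : F3) (u v : V) : Decidable (H φ u v) := by unfold H cy; infer_instance
def red (φ : F3) : Inst := (vs φ, (vs φ ×ˢ vs φ).filter fun e => decide (¬ H φ e.1 e.2),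
  (vs φ).map fun v => (v, toBits (if v.1 % 4 = 1 then 0 else 4), toBits (6 * φ.length + 13)))

attribute [fun_prop] PT.toBits

theorem mem_vs {φ : F3} {v : V} :
    v ∈ vs φ ↔ v.1 < 4 * φ.length + 9 ∧ v.2 < 3 ∧ (v.2 = 0 ∨ v.1 % 4 = 1) := by
  obtain ⟨a, b⟩ := v
  simp [vs, and_assoc]

theorem H_comm {φ : F3} {u v : V} (h : H φ u v) : H φ v u := by
  unfold H cy at *; tauto

theorem adj_iff {φ : F3} {u v : V} (hu : u ∈ vs φ) (hv : v ∈ vs φ) :
    (G (red φ)).Adj u v ↔ u ≠ v ∧ ¬ H φ u v := by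
  simp only [G, red, SimpleGraph.fromRel_adj, List.mem_filter, List.mem_product, hu, hv,
    decide_eq_true_eq, true_and]
  exact and_congr_right fun _ => ⟨fun h => h.elim id fun h c => h (H_comm c), .inl⟩

theorem x_eq {φ : F3} {v : V} (hv : v ∈ vs φ) :
    x (red φ) v = (if v.1 % 4 = 1 then 0 else 1 : ℕ) * (4 / (6 * φ.length + 13)) := by
  have : ∀ {β : Type} (f : V → β) (l : List V), v ∈ l →
      (l.map fun v => (v, f v)).lookup v = some (f v) := by
    intro β f l hv
    induction l with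
    | nil => simp at hv
    | cons a l ih =>
      by_cases e : v = a
      · simp [e]
      · have : (v == a) = false := by simpa using e
        simp only [List.map_cons, List.lookup_cons, this]
        exact ih (by simpa [e] using hv)
  have b : ∀ n, bin (toBits n) = n := ofDigits_toBits
  simp only [x, red, this _ _ hv, Option.map_some, Option.getD_some, b]
  split_ifs <;> simp

theorem cnt (k : ℕ) : ∑ t ∈ range (4 * k + 1), (if t % 4 = 1 then 0 else 1) = 3 * k + 1 := by
  induction k with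
  | zero => rfl
  | succ k ih =>
    rw [show 4 * (k + 1) + 1 = 4 * k + 1 + 1 + 1 + 1 + 1 by omega, sum_range_succ, sum_range_succ,
      sum_range_succ, sum_range_succ, ih, if_pos (by omega), if_neg (by omega), if_neg (by omega),
      if_neg (by omega)]
    omega

theorem cnt2 (k i : ℕ) (hi : i < 2) : #((range (2 * k)).filter fun s => s % 2 = i) = k := by
  rw [card_filter]
  induction k with
  | zero => rfl
  | succ k ih =>
    rw [show 2 * (k + 1) = 2 * k + 1 + 1 by omega, sum_range_succ, sum_range_succ, ih]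
    split_ifs <;> omega

theorem spl (K : SimpleGraph V) (f : ℕ → V) (d : V → ℕ) (n : ℕ) (hd : ∀ s < n, d (f s) = s)
    (c : ℕ → ℕ) (a b : ℕ) (h1 : ∀ s < n, c s < a)
    (h2 : ∀ i < a, #((range n).filter fun s => c s = i) = b)
    (h3 : ∀ s < n, ∀ t < n, s ≠ t → c s = c t → K.Adj (f s) (f t)) :
    Splits K ((range n).image f) a b := by
  refine ⟨fun u => c (d u), fun u hu => ?_, fun i hi => ⟨fun u hu v hv e => ?_, ?_⟩⟩
  · obtain ⟨s, hs, rfl⟩ := mem_image.1 hu
    simp only [hd s (mem_range.1 hs)]; exact h1 s (mem_range.1 hs)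
  · simp only [coe_filter, mem_image, mem_range, Set.mem_setOf_eq] at hu hv
    obtain ⟨⟨s, hs, rfl⟩, e1⟩ := hu
    obtain ⟨⟨t, ht, rfl⟩, e2⟩ := hv
    rw [hd _ hs] at e1
    rw [hd _ ht] at e2
    exact h3 s hs t ht (fun z => e (z ▸ rfl)) (e1.trans e2.symm)
  · rw [filter_image, card_image_of_injOn, ← h2 i hi]
    · exact congrArg card (filter_congr fun s hs => by simp only [hd s (mem_range.1 hs)])
    · intro s hs t ht e
      simp only [coe_filter, mem_range, Set.mem_setOf_eq] at hs ht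
      rw [← hd s hs.1, e, hd t ht.1]

theorem complete {φ : F3} (h : SAT3 φ) : Violated (red φ) := by
  obtain ⟨σ, h⟩ := (sat_iff φ).1 h
  choose! w hw using h
  set m := φ.length
  let g : ℕ → V := fun t => (t, if t % 4 = 1 ∧ t < 4 * m then w (t / 4) else 0)
  have gi : ∀ s t, g s = g t → s = t := fun s t e => congrArg Prod.fst e
  have gv : ∀ t < 4 * m + 9, g t ∈ vs φ := fun t ht => mem_vs.2 ⟨ht, by
    have := hw (t / 4)
    simp only [g]; split_ifs <;> omega⟩
  have gh : ∀ s < 4 * m + 9, ∀ t < 4 * m + 9,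
      ((G (red φ)).Adj (g s) (g t) ↔ s ≠ t ∧ ¬ cy (4 * m + 8) s t) := fun s hs t ht => by
    rw [adj_iff (gv s hs) (gv t ht)]
    refine and_congr ⟨fun h e => h (e ▸ rfl), fun h e => h (gi _ _ e)⟩
      (not_congr ⟨fun h => h.elim id ?_, .inl⟩)
    rintro ⟨h1, h2, h3, h4, h5, h6⟩
    change s % 4 = 1 at h1
    change t % 4 = 1 at h2
    change s < 4 * m at h3
    change t < 4 * m at h4
    simp only [li, g, h1, h2, h3, h4, and_self, if_true] at h5 h6
    exact absurd (((hw (s / 4) (by omega)).2.symm.trans (congrArg σ h5)).trans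
      (hw (t / 4) (by omega)).2) h6
  refine ⟨(range (4 * m + 9)).image g, fun v hv => ?_, ⟨2, 2 * m + 4, le_rfl, by omega, ?_,
    fun v hv => ?_⟩, ?_⟩
  · obtain ⟨t, ht, rfl⟩ := mem_image.1 hv
    exact List.mem_toFinset.2 (gv t (mem_range.1 ht))
  · rw [card_image_of_injective _ gi, card_range]; omega
  · obtain ⟨z, hz, rfl⟩ := mem_image.1 hv
    rw [mem_range] at hz
    let e : ℕ → ℕ := fun s => if s + z + 1 < 4 * m + 9 then s + z + 1 else s + z + 1 - (4 * m + 9)
    have he : ((range (4 * m + 9)).image g).erase (g z) =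
        (range (2 * (2 * m + 4))).image fun s => g (e s) := by
      ext u
      simp only [mem_erase, mem_image, mem_range]
      constructor
      · rintro ⟨h, t, ht, rfl⟩
        have : t ≠ z := fun c => h (c ▸ rfl)
        refine ⟨if z < t then t - z - 1 else t + (4 * m + 8) - z, by split_ifs <;> omega,
          congrArg g ?_⟩
        simp only [e]; split_ifs <;> omega
      · rintro ⟨s, hs, rfl⟩
        refine ⟨fun c => ?_, e s, by simp only [e]; split_ifs <;> omega, rfl⟩
        have := gi _ _ c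
        simp only [e] at this; split_ifs at this <;> omega
    have el : ∀ s < 2 * (2 * m + 4), e s < 4 * m + 9 := fun s hs => by
      simp only [e]; split_ifs <;> omega
    let d : V → ℕ := fun u => if z < u.1 then u.1 - z - 1 else u.1 + (4 * m + 8) - z
    have hd : ∀ s < 2 * (2 * m + 4), d (g (e s)) = s := fun s hs => by
      simp only [d, g, e]; split_ifs <;> omega
    rw [he]
    refine ⟨spl _ _ d _ hd (· % 2) _ _ (fun s _ => by omega) (cnt2 _) fun s hs t ht h1 h2 => ?_,
      spl _ _ d _ hd (· / 2) _ _ (fun s _ => by omega) (fun i hi => ?_) fun s hs t ht h1 h2 => ?_⟩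
    · rw [gh _ (el s hs) _ (el t ht)]
      have : s + 2 ≤ t ∨ t + 2 ≤ s := by omega
      have ee : ∀ s, (s + z + 1 < 4 * m + 9 ∧ e s = s + z + 1) ∨
          (4 * m + 9 ≤ s + z + 1 ∧ e s + (4 * m + 9) = s + z + 1) := fun s => by
        simp only [e]; split_ifs <;> omega
      have := ee s
      have := ee t
      unfold cy; omega
    · rw [show ((range (2 * (2 * m + 4))).filter fun s => s / 2 = i) = {2 * i, 2 * i + 1} from
        Finset.ext fun s => by simp only [mem_filter, mem_range, mem_insert, mem_singleton]; omega]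
      exact card_pair (by omega)
    · rw [SimpleGraph.compl_adj, gh _ (el s hs) _ (el t ht)]
      refine ⟨fun c => ?_, ?_⟩
      · have := gi _ _ c
        simp only [e] at this; split_ifs at this <;> omega
      · simp only [e, cy]; split_ifs <;> omega
  · have a : alpha (G (red φ)) ((range (4 * m + 9)).image g) ≤ 2 := by
      refine Finset.sup_le fun s hs => not_lt.1 fun c => ?_
      simp only [mem_filter, mem_powerset] at hs
      obtain ⟨a, ha, b, hb, d, hd, h1, h2, h3⟩ := two_lt_card.1 c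
      have k1 := hs.2 ha hb h1
      have k2 := hs.2 ha hd h2
      have k3 := hs.2 hb hd h3
      obtain ⟨a, ha', rfl⟩ := mem_image.1 (hs.1 ha)
      obtain ⟨b, hb', rfl⟩ := mem_image.1 (hs.1 hb)
      obtain ⟨d, hd', rfl⟩ := mem_image.1 (hs.1 hd)
      rw [mem_range] at ha' hb' hd'
      rw [gh _ ha' _ hb'] at k1
      rw [gh _ ha' _ hd'] at k2
      rw [gh _ hb' _ hd'] at k3
      have := mt (congrArg g) h1
      have := mt (congrArg g) h2
      have := mt (congrArg g) h3
      unfold cy at *; omega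
    rw [sum_image fun s _ t _ => gi s t, sum_congr rfl fun t ht => x_eq (gv t (mem_range.1 ht)),
      ← sum_mul, ← Nat.cast_sum]
    have := cnt (m + 2)
    rw [show 4 * (m + 2) + 1 = 4 * m + 9 by omega] at this
    simp only [g, this]
    refine lt_of_le_of_lt (Nat.cast_le.2 a) ?_
    rw [← mul_div_assoc, lt_div_iff₀ (by positivity)]
    push_cast; linarith

theorem sound {φ : F3} (h : Violated (red φ)) : SAT3 φ := by
  classical
  obtain ⟨I, hI, ⟨a, w, ha, hw, hc, hs⟩, hx⟩ := h
  have hv : ∀ v ∈ I, v ∈ vs φ := fun v h => List.mem_toFinset.1 (hI h)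
  set m := φ.length
  have a1 : a ≤ alpha (G (red φ)) I := by
    obtain ⟨v, h⟩ := card_pos.1 (show 0 < #I by omega)
    obtain ⟨c, -, h2⟩ := (hs v h).2
    have := h2 0 (by omega)
    rw [← this.card_eq]
    exact le_sup (f := card) (mem_filter.2 ⟨mem_powerset.2
      ((filter_subset _ _).trans (erase_subset _ _)), by simpa using this.isClique⟩)
  rw [sum_congr rfl fun v h => x_eq (hv v h), ← sum_mul, ← Nat.cast_sum, ← mul_div_assoc,
    lt_div_iff₀ (by positivity)] at hx
  have hx' : alpha (G (red φ)) I * (6 * m + 13) < (∑ v ∈ I, if v.1 % 4 = 1 then 0 else 1) * 4 := by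
    exact_mod_cast hx
  have e1 : (∑ v ∈ I, if v.1 % 4 = 1 then 0 else 1) = #(I.filter fun v => ¬ v.1 % 4 = 1) := by
    simp only [card_filter, ite_not]
  let C := ((range (4 * (m + 2) + 1)).filter fun t => ¬ t % 4 = 1).image fun t => ((t, 0) : V)
  have e2 : #C = 3 * (m + 2) + 1 := by
    rw [card_image_of_injective _ fun s t e => congrArg Prod.fst e, ← cnt]
    simp only [card_filter, ite_not]
  have e3 : (I.filter fun v => ¬ v.1 % 4 = 1) ⊆ C := fun v h => by
    have := mem_vs.1 (hv v (mem_filter.1 h).1)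
    have := (mem_filter.1 h).2
    exact mem_image.2 ⟨v.1, mem_filter.2 ⟨mem_range.2 (by omega), this⟩,
      Prod.ext rfl (by dsimp only; omega)⟩
  have e4 := card_le_card e3
  obtain rfl : a = 2 := by nlinarith
  have e5 := eq_of_subset_of_card_le e3 (by nlinarith)
  have cp : ∀ t < 4 * m + 9, ¬ t % 4 = 1 → (t, 0) ∈ I := fun t h1 h2 => (mem_filter.1 (e5.symm ▸
    mem_image.2 ⟨t, mem_filter.2 ⟨mem_range.2 (by omega), h2⟩, rfl⟩ :
      (t, 0) ∈ I.filter fun v => ¬ v.1 % 4 = 1)).1
  have l : ∀ j < m, ∃ r, (4 * j + 1, r) ∈ I := fun j hj => by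
    obtain ⟨z, z1, z2⟩ : ∃ z, z < 4 * m + 9 ∧ (j = 0 ∧ z = 4 * m + 8 ∨ z + 1 = 4 * j) := by
      rcases j with _ | j
      exacts [⟨4 * m + 8, by omega, by omega⟩, ⟨4 * j + 3, by omega, by omega⟩]
    obtain ⟨c, h1, h2⟩ := (hs _ (cp z z1 (by omega))).2
    have p : (4 * j, 0) ∈ I.erase (z, 0) :=
      mem_erase.2 ⟨fun e => by have := congrArg Prod.fst e; dsimp only at this; omega,
        cp _ (by omega) (by omega)⟩
    have q := h2 _ (h1 _ p)
    obtain ⟨⟨t, r⟩, u1, u2⟩ := exists_mem_ne (s := (I.erase (z, 0)).filter fun u => c u = c (4 * j, 0))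
      (by rw [q.card_eq]; omega) (4 * j, 0)
    have u3 := q.isClique u1 (mem_filter.2 ⟨p, rfl⟩) u2
    have u4 := mem_erase.1 (mem_filter.1 u1).1
    rw [SimpleGraph.compl_adj, adj_iff (hv _ u4.2) (hv _ (mem_erase.1 p).2)] at u3
    have u5 := not_not.1 fun c => u3.2 ⟨u3.1, c⟩
    have u6 := mem_vs.1 (hv _ u4.2)
    have u7 : ¬ (t = z ∧ r = 0) := fun e => u4.1 (Prod.ext e.1 e.2)
    obtain rfl : t = 4 * j + 1 := by
      simp only [H, cy] at u5 u6; omega
    exact ⟨r, u4.2⟩
  choose! r hr using l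
  obtain ⟨c, h1, h2⟩ := (hs _ (cp (4 * m + 8) (by omega) (by omega))).1
  have k : ∀ u ∈ I, ∀ v ∈ I, u.1 < 4 * m + 8 → v.1 < 4 * m + 8 → u ≠ v → H φ u v →
      c u + c v = 1 := fun u hu v hv' h3 h4 h5 h6 => by
    have p1 : u ∈ I.erase (4 * m + 8, 0) := mem_erase.2 ⟨fun e => by simp [e] at h3, hu⟩
    have p2 : v ∈ I.erase (4 * m + 8, 0) := mem_erase.2 ⟨fun e => by simp [e] at h4, hv'⟩
    have := h1 u p1
    have := h1 v p2
    have : c v ≠ c u := fun e => ((adj_iff (hv u hu) (hv v hv')).1 ((h2 _ (h1 u p1)).isClique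
      (mem_filter.2 ⟨p1, rfl⟩) (mem_filter.2 ⟨p2, e⟩) h5)).2 h6
    omega
  have k1 : ∀ s a b, s < 4 * m → (s, a) ∈ I → (s + 1, b) ∈ I → c (s, a) + c (s + 1, b) = 1 :=
    fun s a b h3 h4 h5 => k _ h4 _ h5 (by dsimp only; omega) (by dsimp only; omega) (by simp)
      (.inl (.inl rfl))
  have k2 : ∀ j ≤ m, c (4 * j, 0) = c (0, 0) := by
    intro j hj
    induction j with
    | zero => rfl
    | succ j ih =>
      have b1 := k1 _ _ _ (by omega) (cp (4 * j) (by omega) (by omega)) (hr j hj)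
      have b2 := k1 _ _ _ (by omega) (hr j hj) (cp _ (by omega) (by omega))
      have b3 := k1 _ _ _ (by omega) (cp (4 * j + 1 + 1) (by omega) (by omega))
        (cp _ (by omega) (by omega))
      have b4 := k1 _ _ _ (by omega) (cp (4 * j + 1 + 1 + 1) (by omega) (by omega))
        (cp _ (by omega) (by omega))
      have := ih (by omega)
      rw [show 4 * (j + 1) = 4 * j + 1 + 1 + 1 + 1 by omega]; omega
  have e : ∀ j, li φ (4 * j + 1, r j) = lit φ (3 * j + r j) := fun j => by
    simp only [li, show (4 * j + 1) / 4 = j by omega]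
  refine (sat_iff φ).2 ⟨fun i => decide (∃ j < m, lit φ (3 * j + r j) = (i, true)),
    fun j hj => ⟨r j, (mem_vs.1 (hv _ (hr j hj))).2.1, ?_⟩⟩
  cases b : (lit φ (3 * j + r j)).2
  · refine decide_eq_false fun ⟨i, hi, h⟩ => ?_
    have b1 := k1 _ _ _ (by omega) (cp (4 * j) (by omega) (by omega)) (hr j hj)
    have b2 := k1 _ _ _ (by omega) (cp (4 * i) (by omega) (by omega)) (hr i hi)
    have b3 := k _ (hr j hj) _ (hr i hi) (by dsimp only; omega) (by dsimp only; omega)
      (fun z => by rw [← e, ← z, e] at h; exact absurd (b.symm.trans (congrArg Prod.snd h)) (by simp))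
      (.inr ⟨by dsimp only; omega, by dsimp only; omega, by dsimp only; omega,
        by dsimp only; omega, by rw [e, e, h], by rw [e, e, h, b]; simp⟩)
    have := k2 j hj.le
    have := k2 i hi.le
    omega
  · exact decide_eq_true ⟨j, hj, Prod.ext rfl b⟩

theorem result : NPHard fun y : Inst => Valid y ∧ Violated y := by
  refine (hard_SAT3.hardFor.red red (by unfold red H cy li vs; fun_prop)
    fun φ _ => ⟨⟨fun e he => List.mem_product.1 (List.mem_filter.1 he).1, fun v hv => ?_⟩,
      complete, sound⟩).npHard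
  rw [x_eq hv]
  split_ifs
  · simp
  · refine ⟨by positivity, ?_⟩
    rw [Nat.cast_one, one_mul, div_le_div_iff₀ (by positivity) (by positivity)]
    have : (0 : ℚ) ≤ φ.length := by positivity
    linarith

end Pool.Agent.Results.MP_42fe4d_lc.NPHard
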